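import Pool.Agent.Results.MP_aef7b4_an.ConjNotBorel
import Pool.Agent.Y953.CA.Ord
import Pool.Agent.Y953.CA.DSTb

/-!
# Topological conjugacy of real analytic diffeomorphisms of the torus is complete analytic

`M = Circle × Circle` is the two-dimensional torus. The definitions (`Diff`, `incl`, `DiffOmega`,
`TopConj`, `ConjIsBorel`) are those of the starting file `ConjNotBorel`. The topology on
`Diff^∞(M)` is any Polish topology for which the inclusion into `C(M, M)` (uniform convergence) is
continuous; the `C^∞` topology is one of them.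

For every analytic subset `A` of a Polish space `P` there is a Borel map from `P` to the pairs of
real analytic diffeomorphisms of `M` such that `A` is the preimage of topological conjugacy. So
`E^ω_M`, which is analytic, is complete analytic; it is not coanalytic, in particular not Borel.
-/

set_option autoImplicit false

open scoped Manifold ContDiff
open Set Filter Topology MeasureTheory

namespace Pool.Agent.Results.MP_aef7b4_an.CompleteAnalytic

open Pool.Agent.Results.MP_aef7b4_an.ConjNotBorel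
open Pool.Agent.Y953.CA
open Pool.Agent.Helper114.AB hiding not_borel

section Definitions

variable {E H : Type} [NormedAddCommGroup E] [NormedSpace ℝ E] [TopologicalSpace H]
  (I : ModelWithCorners ℝ E H) (M : Type) [TopologicalSpace M] [ChartedSpace H M]

/-- For the topology `τ` on `Diff^∞(M)`, topological conjugacy is an analytic subset of
`Diff^∞(M) × Diff^∞(M)`. -/
def ConjAnalytic (_τ : TopologicalSpace (Diff I M)) : Prop :=
  ∃ s : Set (Diff I M × Diff I M), AnalyticSet s ∧
    ∀ f g, (f, g) ∈ s ↔ TopConj (incl I M f) (incl I M g)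

/-- For the topology `τ` on `Diff^∞(M)` (and the subspace topology on `Diff^ω(M)`), every analytic
subset `A` of a Polish space `P` is the preimage of `E^ω_M` under a Borel map from `P` to
`Diff^ω(M) × Diff^ω(M)`. -/
def ConjHard (_τ : TopologicalSpace (Diff I M)) : Prop :=
  ∀ (P : Type) [TopologicalSpace P] [PolishSpace P] [MeasurableSpace P] [BorelSpace P]
    (A : Set P), AnalyticSet A → ∃ Φ : P → DiffOmega I M × DiffOmega I M,
      @Measurable P (DiffOmega I M × DiffOmega I M) _ (borel _) Φ ∧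
      ∀ y, y ∈ A ↔ TopConj (incl I M (Φ y).1.1) (incl I M (Φ y).2.1)

/-- The complement of `E^ω_M` in `Diff^ω(M) × Diff^ω(M)` is analytic. -/
def ConjCoanalytic (_τ : TopologicalSpace (Diff I M)) : Prop :=
  AnalyticSet {p : DiffOmega I M × DiffOmega I M |
    ¬ TopConj (incl I M p.1.1) (incl I M p.2.1)}

/-- For every Polish topology on `Diff^∞(M)` for which the inclusion into `C(M, M)` is continuous:
topological conjugacy is an analytic relation on `Diff^∞(M)`, every analytic set is the preimage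
of `E^ω_M` under a Borel map, `E^ω_M` is not coanalytic and `E^ω_M` is not Borel. -/
def CompleteNotBorel : Prop :=
  ∀ τ : TopologicalSpace (Diff I M), PolishSpace (Diff I M) → Continuous (incl I M) →
    ConjAnalytic I M τ ∧ ConjHard I M τ ∧ ¬ ConjCoanalytic I M τ ∧ ¬ ConjIsBorel I M τ

end Definitions

/-- Preimages of analytic sets under Borel maps are analytic. -/
theorem analytic_preimage {Z Y : Type} [t : TopologicalSpace Z] [PolishSpace Z]
    [MeasurableSpace Z] [BorelSpace Z] [TopologicalSpace Y] [PolishSpace Y] [MeasurableSpace Y]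
    [BorelSpace Y] {f : Z → Y} (hf : Measurable f) {s : Set Y} (hs : AnalyticSet s) :
    AnalyticSet (f ⁻¹' s) := by
  obtain ⟨t', hle, hc, hp⟩ := hf.exists_continuous
  have h1 : @AnalyticSet Z t' (f ⁻¹' s) := @AnalyticSet.preimage Z Y t' _ hp _ s hs f hc
  have h2 : @Continuous Z Z t' t id := continuous_id_iff_le.2 hle
  have h3 : @AnalyticSet Z t (id '' (f ⁻¹' s)) :=
    @AnalyticSet.image_of_continuous Z t' Z t _ h1 id h2
  rwa [image_id] at h3

theorem polish_C : PolishSpace C(Circle × Circle, Circle × Circle) := by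
  have h0 : CompleteSpace C(Circle × Circle, Circle × Circle) := inferInstance
  have h1 : TopologicalSpace.IsCompletelyMetrizableSpace
      C(Circle × Circle, Circle × Circle) := ⟨⟨inferInstance, rfl, h0⟩⟩
  exact PolishSpace.mk

open Classical in
/-- the centres depend on the order in a Borel way -/
theorem meas_cen' {P : Type} [MeasurableSpace P] {r : P → ℕ → ℕ → Prop}
    (h : ∀ m n, MeasurableSet {y | r y m n}) (n : ℕ) : Measurable (fun y => cen (r y) n) := by
  let c : P → (ℕ → ℕ) := fun y k => if r y k.unpair.1 k.unpair.2 then 1 else 0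
  have hc : Measurable c := measurable_pi_iff.2 fun k =>
    Measurable.ite (h _ _) measurable_const measurable_const
  let r' : (ℕ → ℕ) → ℕ → ℕ → Prop := fun z m n => z (Nat.pair m n) = 1
  have hr' : ∀ m n, MeasurableSet {z | r' z m n} := fun m n =>
    measurable_pi_apply (Nat.pair m n) (measurableSet_singleton 1)
  have e : ∀ y, r y = r' (c y) := by
    intro y
    funext m n
    apply propext
    show r y m n ↔ (if r y (Nat.pair m n).unpair.1 (Nat.pair m n).unpair.2 then 1 else 0) = 1
    rw [Nat.unpair_pair]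
    by_cases hh : r y m n
    · simp [hh]
    · simp [hh]
  simp only [e]
  exact (meas_cen hr' n).comp hc

theorem main : ∀ τ : TopologicalSpace (Diff ((𝓡 1).prod (𝓡 1)) (Circle × Circle)),
    PolishSpace (Diff ((𝓡 1).prod (𝓡 1)) (Circle × Circle)) →
    Continuous (incl ((𝓡 1).prod (𝓡 1)) (Circle × Circle)) →
    -- every analytic set is Borel reducible to `E^ω_M`
    (∀ (P : Type) [TopologicalSpace P] [PolishSpace P] [MeasurableSpace P] [BorelSpace P]
      (A : Set P), AnalyticSet A →
      ∃ Φ : P → DiffOmega ((𝓡 1).prod (𝓡 1)) (Circle × Circle) ×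
          DiffOmega ((𝓡 1).prod (𝓡 1)) (Circle × Circle),
        @Measurable P _ _ (borel _) Φ ∧
        ∀ y, y ∈ A ↔ TopConj (incl _ _ (Φ y).1.1) (incl _ _ (Φ y).2.1)) ∧
    -- `E^ω_M` is the trace of an analytic set
    (∃ s : Set (Diff ((𝓡 1).prod (𝓡 1)) (Circle × Circle) ×
        Diff ((𝓡 1).prod (𝓡 1)) (Circle × Circle)), AnalyticSet s ∧
      ∀ f g, (f, g) ∈ s ↔ TopConj (incl _ _ f) (incl _ _ g)) ∧
    -- `E^ω_M` is not coanalytic
    (¬ AnalyticSet {p : DiffOmega ((𝓡 1).prod (𝓡 1)) (Circle × Circle) ×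
        DiffOmega ((𝓡 1).prod (𝓡 1)) (Circle × Circle) |
          ¬ TopConj (incl _ _ p.1.1) (incl _ _ p.2.1)}) ∧
    -- the question: `E^ω_M` is not Borel
    ¬ ConjIsBorel ((𝓡 1).prod (𝓡 1)) (Circle × Circle) τ := by
  intro τ hpol hι
  obtain ⟨N, M, f, Fh, F, G, hex, c3, c4, hlim, hconj, hF, hG, rF, rG, hcont⟩ := family
  have an : ∀ a, ContMDiff ((𝓡 1).prod (𝓡 1)) ((𝓡 1).prod (𝓡 1)) ω (EM ∘ ⇑(f a) ∘ EM.symm) :=
    fun a => contMDiff_toM (F a) (hF a) (f a) (rF a)
  have an' : ∀ a, ContMDiff ((𝓡 1).prod (𝓡 1)) ((𝓡 1).prod (𝓡 1)) ω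
      (EM ∘ ⇑(f a)⁻¹ ∘ EM.symm) :=
    fun a => contMDiff_toM (G a) (hG a) _ (rG a)
  let mk : Pm → Diff ((𝓡 1).prod (𝓡 1)) (Circle × Circle) := fun a =>
    { toEquiv := (EM.symm.trans ((f a).trans EM)).toEquiv
      contMDiff_toFun := (an a).of_le le_top
      contMDiff_invFun := (an' a).of_le le_top }
  have mk_apply : ∀ a x, incl ((𝓡 1).prod (𝓡 1)) (Circle × Circle) (mk a) x
    = EM (f a (EM.symm x)) := fun a x => rfl
  have mk_mem : ∀ a, mk a ∈ DiffOmega ((𝓡 1).prod (𝓡 1)) (Circle × Circle) :=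
    fun a => ⟨an a, an' a⟩
  have mk_cont : Continuous fun a => incl ((𝓡 1).prod (𝓡 1)) (Circle × Circle) (mk a) := by
    have h1 : Continuous fun q : Pm × (Circle × Circle) => EM (f q.1 (EM.symm q.2)) := by
      apply EM.continuous.comp
      exact hcont.comp (continuous_fst.prodMk (EM.symm.continuous.comp continuous_snd))
    exact (ContinuousMap.curry ⟨_, h1⟩).continuous
  have inj : Function.Injective (incl ((𝓡 1).prod (𝓡 1)) (Circle × Circle)) := by
    intro a b hab
    apply Diffeomorph.toEquiv_injective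
    ext x : 1
    exact congrArg (fun g : C(Circle × Circle, Circle × Circle) => g x) hab
  let _ : MeasurableSpace (Diff ((𝓡 1).prod (𝓡 1)) (Circle × Circle)) := borel _
  have _ : BorelSpace (Diff ((𝓡 1).prod (𝓡 1)) (Circle × Circle)) := ⟨rfl⟩
  let _ : MeasurableSpace C(Circle × Circle, Circle × Circle) := borel _
  have _ : BorelSpace C(Circle × Circle, Circle × Circle) := ⟨rfl⟩
  have hemb : MeasurableEmbedding (incl ((𝓡 1).prod (𝓡 1)) (Circle × Circle)) :=
    hι.measurableEmbedding inj
  have hard : ∀ (P : Type) [TopologicalSpace P] [PolishSpace P] [MeasurableSpace P] [BorelSpace P]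
      (A : Set P), AnalyticSet A →
      ∃ Φ : P → DiffOmega ((𝓡 1).prod (𝓡 1)) (Circle × Circle) ×
          DiffOmega ((𝓡 1).prod (𝓡 1)) (Circle × Circle), Measurable Φ ∧
        ∀ y, y ∈ A ↔ TopConj (incl _ _ (Φ y).1.1) (incl _ _ (Φ y).2.1) := by
    intro P _ _ _ _ Nb hNb
    obtain ⟨r1, r2, s1, s2, m1, m2, hiso, hwf, hdl⟩ := orders' Nb hNb
    let a1 : P → Pm := fun y n => ⟨cen (r1 y) n, cen_mem (s1 y) n⟩
    let a2 : P → Pm := fun y n => ⟨cen (r2 y) n, cen_mem (s2 y) n⟩
    have ma1 : Measurable a1 := measurable_pi_lambda _ fun n => (meas_cen' m1 n).subtype_mk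
    have ma2 : Measurable a2 := measurable_pi_lambda _ fun n => (meas_cen' m2 n).subtype_mk
    have id1 : ∀ y, Ideal N M (cen (r1 y)) (Fh (a1 y)) := fun y =>
      ⟨hex, c3, c4, disj_cen (s1 y), hlim (a1 y)⟩
    have id2 : ∀ y, Ideal N M (cen (r2 y)) (Fh (a2 y)) := fun y =>
      ⟨hex, c3, c4, disj_cen (s2 y), hlim (a2 y)⟩
    have meas : ∀ a : P → Pm, Measurable a → Measurable
        (fun y => (⟨mk (a y), mk_mem _⟩ : DiffOmega ((𝓡 1).prod (𝓡 1)) (Circle × Circle))) := by
      intro a ha
      have h1 : Measurable fun y => incl ((𝓡 1).prod (𝓡 1)) (Circle × Circle) (mk (a y)) :=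
        mk_cont.measurable.comp ha
      exact (hemb.measurable_comp_iff.mp h1).subtype_mk
    refine ⟨fun y => (⟨mk (a1 y), mk_mem _⟩, ⟨mk (a2 y), mk_mem _⟩),
      (meas a1 ma1).prodMk (meas a2 ma2), ?_⟩
    intro y
    obtain ⟨C1, hC1⟩ := hconj (a1 y)
    obtain ⟨C2, hC2⟩ := hconj (a2 y)
    constructor
    · intro hy
      obtain ⟨π, hπ⟩ := hiso y hy
      obtain ⟨K, hK⟩ := forward (s1 y) (s2 y) π hπ (id1 y) (id2 y)
      refine ⟨EM.symm.trans (C1.symm.trans (K.trans (C2.trans EM))), fun x => ?_⟩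
      simp only [Homeomorph.trans_apply]
      rw [mk_apply, mk_apply]
      simp only [Homeomorph.symm_apply_apply]
      congr 1
      have e1 : C1.symm (f (a1 y) (EM.symm x)) = Fh (a1 y) (C1.symm (EM.symm x)) := by
        rw [Homeomorph.symm_apply_eq, ← hC1, Homeomorph.apply_symm_apply]
      rw [e1, hK, hC2]
    · rintro ⟨h, hh⟩
      by_contra hy
      obtain ⟨S, hS⟩ := hdl y
      refine backward (s1 y) (s2 y) (hwf y hy) hS (id1 y) (id2 y)
        (C1.trans (EM.trans (h.trans (EM.symm.trans C2.symm)))) (fun p => ?_)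
      simp only [Homeomorph.trans_apply]
      rw [Homeomorph.symm_apply_eq, ← hC2, Homeomorph.apply_symm_apply]
      have h1 := hh (EM (C1 p))
      rw [mk_apply, mk_apply, Homeomorph.symm_apply_apply] at h1
      rw [← hC1, h1, Homeomorph.symm_apply_apply]
  have hbs : BorelSpace (DiffOmega ((𝓡 1).prod (𝓡 1)) (Circle × Circle) ×
    DiffOmega ((𝓡 1).prod (𝓡 1)) (Circle × Circle)) := inferInstance
  have _ : T2Space C(Circle × Circle, Circle × Circle) := inferInstance
  have _ : PolishSpace C(Circle × Circle, Circle × Circle) := polish_C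
  -- not coanalytic
  have hcoan : ¬ AnalyticSet {p : DiffOmega ((𝓡 1).prod (𝓡 1)) (Circle × Circle) ×
        DiffOmega ((𝓡 1).prod (𝓡 1)) (Circle × Circle) |
          ¬ TopConj (incl _ _ p.1.1) (incl _ _ p.2.1)} := by
    intro hs
    have _ : PolishSpace (List ℕ → Bool) := {}
    have hIG : AnalyticSet IG := IG_analytic
    obtain ⟨Φ, hΦ, hA⟩ := hard (List ℕ → Bool) IG hIG
    apply IG_not_coanalytic
    let v : DiffOmega ((𝓡 1).prod (𝓡 1)) (Circle × Circle) ×
        DiffOmega ((𝓡 1).prod (𝓡 1)) (Circle × Circle) →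
        Diff ((𝓡 1).prod (𝓡 1)) (Circle × Circle) × Diff ((𝓡 1).prod (𝓡 1)) (Circle × Circle) :=
      fun p => (p.1.1, p.2.1)
    have hv : Continuous v := (continuous_subtype_val.comp continuous_fst).prodMk
      (continuous_subtype_val.comp continuous_snd)
    have h1 := hs.image_of_continuous hv
    have h2 : (IGᶜ : Set (List ℕ → Bool)) = (fun y => v (Φ y)) ⁻¹' (v ''
        {p : DiffOmega ((𝓡 1).prod (𝓡 1)) (Circle × Circle) ×
        DiffOmega ((𝓡 1).prod (𝓡 1)) (Circle × Circle) |
          ¬ TopConj (incl _ _ p.1.1) (incl _ _ p.2.1)}) := by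
      ext y
      rw [mem_compl_iff, hA]
      constructor
      · intro hy
        exact ⟨Φ y, hy, rfl⟩
      · rintro ⟨p, hp, hpy⟩
        have e1 : p.1.1 = (Φ y).1.1 := congrArg Prod.fst hpy
        have e2 : p.2.1 = (Φ y).2.1 := congrArg Prod.snd hpy
        have hp' : ¬ TopConj (incl _ _ p.1.1) (incl _ _ p.2.1) := hp
        rw [e1, e2] at hp'
        exact hp'
    rw [h2]
    exact analytic_preimage (hv.measurable.comp hΦ) h1
  refine ⟨fun P _ _ _ _ A hA => ?_, ?_, hcoan, ?_⟩
  · obtain ⟨Φ, hΦ, h⟩ := hard P A hA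
    refine ⟨Φ, ?_, h⟩
    rw [← hbs.measurable_eq]
    exact hΦ
  · -- analytic
    let Cm := C(Circle × Circle, Circle × Circle)
    let D := Diff ((𝓡 1).prod (𝓡 1)) (Circle × Circle)
    let cl : Set ((D × D) × (Cm × Cm)) := {q | q.2.1.comp q.2.2 = ContinuousMap.id _ ∧
      q.2.2.comp q.2.1 = ContinuousMap.id _ ∧
      q.2.1.comp (incl _ _ q.1.1) = (incl _ _ q.1.2).comp q.2.1}
    have hcl : IsClosed cl := by
      have i1 : Continuous fun q : (D × D) × (Cm × Cm) => incl ((𝓡 1).prod (𝓡 1)) (Circle × Circle) q.1.1 :=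
        hι.comp (continuous_fst.comp continuous_fst)
      have i2 : Continuous fun q : (D × D) × (Cm × Cm) => incl ((𝓡 1).prod (𝓡 1)) (Circle × Circle) q.1.2 :=
        hι.comp (continuous_snd.comp continuous_fst)
      have i3 : Continuous fun q : (D × D) × (Cm × Cm) => q.2.1 :=
        continuous_fst.comp continuous_snd
      have i4 : Continuous fun q : (D × D) × (Cm × Cm) => q.2.2 :=
        continuous_snd.comp continuous_snd
      refine (isClosed_eq ?_ continuous_const).inter ((isClosed_eq ?_ continuous_const).inter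
        (isClosed_eq ?_ ?_))
      · exact i3.compCM i4
      · exact i4.compCM i3
      · exact i3.compCM i1
      · exact i2.compCM i3
    refine ⟨Prod.fst '' cl, hcl.analyticSet.image_of_continuous continuous_fst, fun f g => ?_⟩
    constructor
    · rintro ⟨⟨⟨f', g'⟩, ⟨h, k⟩⟩, ⟨h1, h2, h3⟩, h4⟩
      have e1 : f' = f := congrArg Prod.fst h4
      have e2 : g' = g := congrArg Prod.snd h4
      subst e1 e2
      refine ⟨⟨⟨h, k, fun x => DFunLike.congr_fun h2 x, fun x => DFunLike.congr_fun h1 x⟩,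
        h.continuous, k.continuous⟩, fun x => DFunLike.congr_fun h3 x⟩
    · rintro ⟨h, hh⟩
      refine ⟨((f, g), (⟨h, h.continuous⟩, ⟨h.symm, h.symm.continuous⟩)), ⟨?_, ?_, ?_⟩, rfl⟩
      · ext x : 1
        exact h.apply_symm_apply x
      · ext x : 1
        exact h.symm_apply_apply x
      · ext x : 1
        exact hh x
  · -- not Borel
    intro hB
    have _ : PolishSpace (List ℕ → Bool) := {}
    obtain ⟨Φ, hΦ, hA⟩ := hard (List ℕ → Bool) IG IG_analytic
    apply IG_not_coanalytic
    have hB' : MeasurableSet {p : DiffOmega ((𝓡 1).prod (𝓡 1)) (Circle × Circle) ×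
        DiffOmega ((𝓡 1).prod (𝓡 1)) (Circle × Circle) |
          TopConj (incl _ _ p.1.1) (incl _ _ p.2.1)} := by
      rw [hbs.measurable_eq]
      exact hB
    have h1 : IG = Φ ⁻¹' {p : DiffOmega ((𝓡 1).prod (𝓡 1)) (Circle × Circle) ×
        DiffOmega ((𝓡 1).prod (𝓡 1)) (Circle × Circle) |
          TopConj (incl _ _ p.1.1) (incl _ _ p.2.1)} := by
      ext y
      exact hA y
    have h2 : MeasurableSet IG := by
      rw [h1]
      exact hΦ hB'
    exact MeasurableSet.analyticSet h2.compl

/-- The relation `E^ω_M` is complete analytic for the torus `M = S¹ × S¹`, for every Polish topology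
on `Diff^∞(M)` that makes the inclusion into `C(M, M)` continuous; so it is not coanalytic, in
particular not Borel. -/
theorem result : CompleteNotBorel ((𝓡 1).prod (𝓡 1)) (Circle × Circle) := by
  intro τ h1 h2
  obtain ⟨a, b, c, d⟩ := main τ h1 h2
  exact ⟨b, a, c, d⟩

end Pool.Agent.Results.MP_aef7b4_an.CompleteAnalytic
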